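import Pool.Agent.H923R2.FP.Stubs

set_option autoImplicit false

open scoped ComplexConjugate
open Set Filter Topology

noncomputable section

namespace Pool.Agent.H923R2.FP.T_LAW

open Pool.Agent.H923R2.FP

variable {A Q R : Type}

section alg

variable [Ring A] [Algebra ℂ A]

theorem evx_lix (θ : Lt Q R → A) (D : List (Lt Q R) → Ex Q R) (e : Ex Q R) :
    evx θ (lix D e) = (e.map fun p => p.1 • evx θ (D p.2)).sum := by
  induction e with
  | nil => simp [lix]
  | cons p e ih =>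
    have h : lix D (p :: e) = smx p.1 (D p.2) ++ lix D e := by simp [lix]
    rw [h, evx_append, evx_smx, ih, List.map_cons, List.sum_cons]

end alg

theorem wtx_nonneg (ω : Lt Q R → ℝ) (hω : ∀ z, 1 ≤ ω z) (e : Ex Q R) : 0 ≤ wtx ω e := by
  unfold wtx
  apply List.sum_nonneg
  intro x hx
  obtain ⟨p, -, rfl⟩ := List.mem_map.1 hx
  apply mul_nonneg (norm_nonneg _)
  apply List.prod_nonneg
  intro y hy
  obtain ⟨z, -, rfl⟩ := List.mem_map.1 hy
  linarith [hω z]

section norm

variable [CStarAlgebra A]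

theorem norm_ev_le (θ : Lt Q R → A) (ω : Lt Q R → ℝ) (hω : ∀ z, 1 ≤ ω z)
    (h : ∀ z, ‖θ z‖ ≤ ω z) (w : List (Lt Q R)) : ‖ev θ w‖ ≤ (w.map ω).prod := by
  induction w with
  | nil =>
    rw [ev_nil, List.map_nil, List.prod_nil]
    rcases subsingleton_or_nontrivial A with hA | hA
    · rw [Subsingleton.elim (1 : A) 0, norm_zero]; exact zero_le_one
    · rw [CStarRing.norm_one]
  | cons z w ih =>
    rw [ev_cons, List.map_cons, List.prod_cons]
    calc ‖θ z * ev θ w‖ ≤ ‖θ z‖ * ‖ev θ w‖ := norm_mul_le _ _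
      _ ≤ ω z * (w.map ω).prod :=
        mul_le_mul (h z) ih (norm_nonneg _) (by linarith [hω z])

theorem norm_evx_le (θ : Lt Q R → A) (ω : Lt Q R → ℝ) (hω : ∀ z, 1 ≤ ω z)
    (h : ∀ z, ‖θ z‖ ≤ ω z) (e : Ex Q R) : ‖evx θ e‖ ≤ wtx ω e := by
  induction e with
  | nil => simp [wtx]
  | cons p e ih =>
    rw [evx_cons]
    have h1 : wtx ω (p :: e) = ‖p.1‖ * (p.2.map ω).prod + wtx ω e := by simp [wtx]
    rw [h1]
    refine (norm_add_le _ _).trans (add_le_add ?_ ih)
    rw [norm_smul]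
    exact mul_le_mul_of_nonneg_left (norm_ev_le θ ω hω h p.2) (norm_nonneg _)

end norm

/-- one step of the continuation -/
theorem step {H : Ex Q R → ℝ → ℂ} {D : List (Lt Q R) → Ex Q R} {T K : ℝ} {ω : Lt Q R → ℝ}
    (hω : ∀ z, 1 ≤ ω z) (hK : 0 ≤ K)
    (hder : ∀ e, ∀ t ∈ Icc 0 T, HasDerivWithinAt (H e) (H (lix D e) t) (Icc 0 T) t)
    (hbd : ∀ e, ∀ t ∈ Icc 0 T, ‖H e t‖ ≤ 2 * wtx ω e)
    (hB : ∀ (n : ℕ) (w : List (Lt Q R)), wtx ω ((lix D)^[n] [(1, w)]) ≤
      n.factorial * K ^ n * 2 ^ w.length * (w.map ω).prod)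
    {t0 : ℝ} (ht0 : 0 ≤ t0) (h0 : ∀ e, H e t0 = 0) {t : ℝ} (ht : t0 ≤ t) (htT : t ≤ T)
    (hKt : K * (t - t0) ≤ 1 / 2) (w : List (Lt Q R)) : H [(1, w)] t = 0 := by
  -- iterated bound
  have key : ∀ (n : ℕ) (e : Ex Q R), ∀ x ∈ Icc t0 T,
      ‖H e x‖ ≤ 2 * wtx ω ((lix D)^[n] e) * ((x - t0) ^ n / n.factorial) := by
    intro n
    induction n with
    | zero =>
      intro e x hx
      simpa using hbd e x ⟨ht0.trans hx.1, hx.2⟩
    | succ n ih =>
      intro e
      have hsub : Icc t0 T ⊆ Icc 0 T := Icc_subset_Icc_left ht0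
      have hcont : ContinuousOn (H e) (Icc t0 T) := fun x hx =>
        ((hder e x (hsub hx)).continuousWithinAt).mono hsub
      have hd : ∀ x ∈ Ico t0 T, HasDerivWithinAt (H e) (H (lix D e) x) (Ici x) x := by
        intro x hx
        have h1 := (hder e x ⟨ht0.trans hx.1, hx.2.le⟩).mono
          (Icc_subset_Icc_left (ht0.trans hx.1) : Icc x T ⊆ Icc 0 T)
        exact h1.mono_of_mem_nhdsWithin (Icc_mem_nhdsGE hx.2)
      obtain ⟨c, hc⟩ : ∃ c, c = 2 * wtx ω ((lix D)^[n + 1] e) := ⟨_, rfl⟩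
      have hfn : (n.factorial : ℝ) ≠ 0 := by exact_mod_cast n.factorial_ne_zero
      have hbound := image_norm_le_of_norm_deriv_right_le_deriv_boundary
        (f := H e) (f' := H (lix D e)) (a := t0) (b := T)
        (B := fun x => c * ((x - t0) ^ (n + 1) / (n + 1).factorial))
        (B' := fun x => c * ((x - t0) ^ n / n.factorial))
        hcont hd (by rw [h0 e]; simp) (by
          intro x
          have h1 : HasDerivAt (fun x : ℝ => (x - t0) ^ (n + 1)) ((n + 1 : ℕ) * (x - t0) ^ n * 1)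
              x := by
            have := (hasDerivAt_pow (n + 1) (x - t0)).comp_sub_const x t0
            rw [mul_one]
            exact this
          have h2 := (h1.div_const ((n + 1).factorial : ℝ)).const_mul c
          refine h2.congr_deriv ?_
          rw [Nat.factorial_succ]
          push_cast
          field_simp) (by
          intro x hx
          have h1 := ih (lix D e) x ⟨hx.1, hx.2.le⟩
          rw [hc]
          rwa [← Function.iterate_succ_apply] at h1)
      intro x hx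
      have := hbound hx
      rw [← hc]
      exact this
  -- the limit
  obtain ⟨M, hM⟩ : ∃ M : ℝ, M = 2 * (2 ^ w.length * (w.map ω).prod) := ⟨_, rfl⟩
  have hM0 : 0 ≤ M := by
    rw [hM]
    have : 0 ≤ (w.map ω).prod := by
      apply List.prod_nonneg
      intro y hy
      obtain ⟨z, -, rfl⟩ := List.mem_map.1 hy
      linarith [hω z]
    positivity
  have hle : ∀ n : ℕ, ‖H [(1, w)] t‖ ≤ M * (1 / 2 : ℝ) ^ n := by
    intro n
    have hfn : (0 : ℝ) < n.factorial := by exact_mod_cast n.factorial_pos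
    have h1 := key n [(1, w)] t ⟨ht, htT⟩
    have h2 : 0 ≤ (t - t0) ^ n / n.factorial :=
      div_nonneg (pow_nonneg (by linarith) _) hfn.le
    have h3 := mul_le_mul_of_nonneg_right
      (mul_le_mul_of_nonneg_left (hB n w) (by norm_num : (0 : ℝ) ≤ 2)) h2
    refine h1.trans (h3.trans ?_)
    have h4 : 2 * (n.factorial * K ^ n * 2 ^ w.length * (w.map ω).prod) *
        ((t - t0) ^ n / n.factorial) = M * (K * (t - t0)) ^ n := by
      rw [hM, mul_pow]
      field_simp
    rw [h4]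
    apply mul_le_mul_of_nonneg_left _ hM0
    exact pow_le_pow_left₀ (mul_nonneg hK (by linarith)) hKt n
  have hlim : Tendsto (fun n : ℕ => M * (1 / 2 : ℝ) ^ n) atTop (𝓝 (M * 0)) :=
    (tendsto_pow_atTop_nhds_zero_of_lt_one (by norm_num) (by norm_num)).const_mul M
  rw [mul_zero] at hlim
  have := ge_of_tendsto' hlim hle
  exact norm_le_zero_iff.1 this

theorem t_LAW (hBND : S_BND) (hWDER : S_WDER) : S_LAW := by
  intro A Q R _ _ _ _ _ _ _ τ π ρ hx px T U s hτ hhx hsol hinv
  obtain ⟨D, hD, hDb⟩ := hBND Q R hx px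
  -- the values of the letters along the flow
  obtain ⟨θ, hθ⟩ : ∃ θ : ℝ → Lt Q R → A, θ = fun t => vl (cj π (U t)) ρ (s t) := ⟨_, rfl⟩
  obtain ⟨θ0, hθ0⟩ : ∃ θ0 : Lt Q R → A, θ0 = vl π ρ (s 0) := ⟨_, rfl⟩
  have hθ00 : θ 0 = θ0 := by
    rw [hθ, hθ0]
    funext z
    cases z with
    | q x => simp [cj_apply, hsol.U0]
    | r x => rfl
    | s => rfl
  -- a bound for `s`
  have hscont : ContinuousOn s (Icc 0 T) := fun t ht => (hsol.ds t ht).continuousWithinAt
  obtain ⟨S, hS⟩ := isCompact_Icc.exists_bound_of_continuousOn hscont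
  obtain ⟨ω, hωdef⟩ : ∃ ω : Lt Q R → ℝ, ω = fun z => match z with
    | .q x => 1 + ‖π x‖
    | .r x => 1 + ‖ρ x‖
    | .s => 1 + |S| := ⟨_, rfl⟩
  have hω : ∀ z, 1 ≤ ω z := by
    intro z
    rw [hωdef]
    cases z with
    | q x => simp
    | r x => simp
    | s => simp
  have hθω : ∀ t ∈ Icc 0 T, ∀ z, ‖θ t z‖ ≤ ω z := by
    intro t ht z
    rw [hθ, hωdef]
    cases z with
    | q x =>
      show ‖cj π (U t) x‖ ≤ 1 + ‖π x‖
      rw [cj_apply, CStarRing.norm_mul_coe_unitary]
      have h1 : ‖star (U t : A) * π x‖ = ‖π x‖ := by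
        have : star (U t : A) = ((star (U t) : unitary A) : A) := rfl
        rw [this, CStarRing.norm_coe_unitary_mul]
      rw [h1]
      linarith
    | r x =>
      show ‖ρ x‖ ≤ 1 + ‖ρ x‖
      linarith
    | s =>
      show ‖s t‖ ≤ 1 + |S|
      have h1 := hS t ht
      have h2 := le_abs_self S
      linarith
  obtain ⟨K, hK, hKb⟩ := hDb ω hω
  -- the trace as a continuous linear map
  obtain ⟨τc, hτc⟩ : ∃ τc : A →L[ℝ] ℂ, ∀ x, τc x = τ x := by
    refine ⟨(τ.mkContinuous 1 (fun x => by simpa using hτ.bound x)).restrictScalars ℝ,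
      fun x => rfl⟩
  obtain ⟨H, hH⟩ : ∃ H : Ex Q R → ℝ → ℂ, H = fun e t => τ (evx (θ t) e) - τ (evx θ0 e) :=
    ⟨_, rfl⟩
  -- invariance at time zero
  have hinvx : ∀ e : Ex Q R, τ (evx θ0 (lix D e)) = 0 := by
    intro e
    rw [evx_lix]
    induction e with
    | nil => simp
    | cons p e ih =>
      rw [List.map_cons, List.sum_cons, map_add, ih, add_zero, map_smul, hθ0, hD, hinv, smul_zero]
  -- derivative
  have hwd : ∀ (w : List (Lt Q R)), ∀ t ∈ Icc 0 T,
      HasDerivWithinAt (fun t => ev (θ t) w) (evx (θ t) (D w)) (Icc 0 T) t := by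
    intro w t ht
    have h1 := hWDER A Q R π ρ hx px T U s hhx hsol w t ht
    rw [hθ]
    have h2 := hD A (cj π (U t)) ρ (s t) w
    simp only
    rw [h2]
    exact h1
  have hxd : ∀ (e : Ex Q R), ∀ t ∈ Icc 0 T,
      HasDerivWithinAt (fun t => evx (θ t) e) (evx (θ t) (lix D e)) (Icc 0 T) t := by
    intro e t ht
    induction e with
    | nil =>
      simp only [evx_nil]
      have : evx (θ t) (lix D ([] : Ex Q R)) = 0 := by simp [lix]
      rw [this]
      exact hasDerivWithinAt_const t _ _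
    | cons p e ih =>
      have h : lix D (p :: e) = smx p.1 (D p.2) ++ lix D e := by simp [lix]
      simp only [evx_cons, h, evx_append, evx_smx]
      exact ((hwd p.2 t ht).const_smul p.1).add ih
  have hder : ∀ e, ∀ t ∈ Icc 0 T, HasDerivWithinAt (H e) (H (lix D e) t) (Icc 0 T) t := by
    intro e t ht
    have h1 := (τc.hasFDerivAt (x := evx (θ t) e)).comp_hasDerivWithinAt t (hxd e t ht)
    have h2 := h1.sub_const (τ (evx θ0 e))
    have h3 : HasDerivWithinAt (fun t => τ (evx (θ t) e) - τ (evx θ0 e))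
        (τc (evx (θ t) (lix D e))) (Icc 0 T) t :=
      h2.congr_of_eventuallyEq (by filter_upwards with x; simp [hτc]) (by simp [hτc])
    rw [hτc] at h3
    rw [hH]
    simp only
    rw [hinvx e, sub_zero]
    exact h3
  have hbd : ∀ e, ∀ t ∈ Icc 0 T, ‖H e t‖ ≤ 2 * wtx ω e := by
    intro e t ht
    rw [hH]
    have h0T : (0 : ℝ) ∈ Icc 0 T := ⟨le_rfl, ht.1.trans ht.2⟩
    have h1 : ‖τ (evx (θ t) e)‖ ≤ wtx ω e :=
      (hτ.bound _).trans (norm_evx_le _ ω hω (hθω t ht) e)
    have h2 : ‖τ (evx θ0 e)‖ ≤ wtx ω e := by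
      rw [← hθ00]
      exact (hτ.bound _).trans (norm_evx_le _ ω hω (hθω 0 h0T) e)
    calc ‖τ (evx (θ t) e) - τ (evx θ0 e)‖ ≤ ‖τ (evx (θ t) e)‖ + ‖τ (evx θ0 e)‖ :=
          norm_sub_le _ _
      _ ≤ 2 * wtx ω e := by linarith
  -- from words to expressions
  have hlin : ∀ t, (∀ w, H [(1, w)] t = 0) → ∀ e, H e t = 0 := by
    intro t hw e
    have hw' : ∀ w, τ (ev (θ t) w) = τ (ev θ0 w) := by
      intro w
      have := hw w
      rw [hH] at this
      simpa [sub_eq_zero] using this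
    rw [hH]
    induction e with
    | nil => simp
    | cons p e ih =>
      simp only at ih ⊢
      rw [evx_cons, evx_cons, map_add, map_add, map_smul, map_smul, hw' p.2]
      rw [sub_eq_zero] at ih ⊢
      rw [ih]
  -- steps
  obtain ⟨η, hη⟩ : ∃ η : ℝ, η = 1 / (2 * (K + 1)) := ⟨_, rfl⟩
  have hη0 : 0 < η := by rw [hη]; positivity
  have hKη : K * η ≤ 1 / 2 := by
    rw [hη]
    have : K * (1 / (2 * (K + 1))) = (K / (K + 1)) / 2 := by field_simp
    rw [this]
    have h2 : K / (K + 1) ≤ 1 := by rw [div_le_one (by linarith)]; linarith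
    linarith
  have hsteps : ∀ m : ℕ, ∀ t ∈ Icc 0 T, t ≤ m * η → ∀ e, H e t = 0 := by
    intro m
    induction m with
    | zero =>
      intro t ht htm e
      have h1 : t = 0 := by
        have := ht.1
        simp at htm
        linarith
      rw [hH, h1]
      simp [hθ00]
    | succ m ih =>
      intro t ht htm
      by_cases hc : t ≤ m * η
      · exact ih t ht hc
      · push Not at hc
        have hm0 : 0 ≤ (m : ℝ) * η := by positivity
        have h0 : ∀ e, H e (m * η) = 0 := ih (m * η) ⟨hm0, by linarith [ht.2]⟩ le_rfl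
        apply hlin
        intro w
        refine step hω hK hder hbd hKb hm0 h0 hc.le ht.2 ?_ w
        have h2 : t - m * η ≤ η := by
          push_cast at htm
          linarith
        exact (mul_le_mul_of_nonneg_left h2 hK).trans hKη
  intro t ht w
  obtain ⟨m, hm⟩ := exists_nat_ge (t / η)
  have h1 : t ≤ m * η := by rwa [div_le_iff₀ hη0] at hm
  have h2 := hsteps m t ht h1 [(1, w)]
  rw [hH] at h2
  simp only [evx_cons, evx_nil, one_smul, add_zero, sub_eq_zero] at h2
  rw [hθ, hθ0] at h2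
  exact h2

end Pool.Agent.H923R2.FP.T_LAW
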