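import Mathlib
import Pool.Agent.H476R2.Pal.Defs

set_option autoImplicit false

namespace Pool.Agent.H535R2.Pal

open Finset Pool.Agent.Helper112 Pool.Agent.H476R2.Pal

/-- `9 ∑ fr M c + 1 = 10 ^ (2 M + 1)` -/
lemma sum_fr (M : ℕ) : 9 * ∑ c ∈ range (M + 1), fr M c + 1 = 10 ^ (2 * M + 1) := by
  induction M with
  | zero => simp [fr]
  | succ M ih =>
    rw [sum_range_succ]
    have h1 : ∑ c ∈ range (M + 1), fr (M + 1) c = 10 * ∑ c ∈ range (M + 1), fr M c := by
      rw [mul_sum]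
      apply sum_congr rfl
      intro c hc
      rw [mem_range] at hc
      rw [fr_scale (L := M + 1) (M := M) (by omega) (by omega)]
      simp
    have h2 : fr (M + 1) (M + 1) = 10 ^ (2 * M + 2) + 1 := by
      unfold fr
      rw [if_neg (by omega)]
      congr 1
      · congr 1; ring
      · simp
    rw [h1, h2]
    have h3 : 10 ^ (2 * (M + 1) + 1) = 100 * 10 ^ (2 * M + 1) := by ring
    have h4 : 10 ^ (2 * M + 2) = 10 * 10 ^ (2 * M + 1) := by ring
    rw [h3, h4]
    omega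

lemma sum_fr_int (M : ℕ) : 9 * ∑ c ∈ range (M + 1), (fr M c : ℤ) + 1 = 10 ^ (2 * M + 1) := by
  exact_mod_cast sum_fr M

/-- uniqueness of the expansion with small digits -/
lemma digits_zero (M : ℕ) : ∀ z : ℕ → ℤ, (∀ c ≤ M, |z c| ≤ 18) →
    ∑ c ∈ range (M + 1), z c * fr M c = 0 → ∀ c ≤ M, z c = 0 := by
  induction M with
  | zero =>
    intro z _ h c hc
    obtain rfl : c = 0 := by omega
    simpa [fr] using h
  | succ M ih =>
    intro z hz h
    have h1 : ∑ c ∈ range (M + 1), z c * fr (M + 1) c = 10 * ∑ c ∈ range (M + 1), z c * fr M c := by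
      rw [mul_sum]
      apply sum_congr rfl
      intro c hc
      rw [mem_range] at hc
      rw [fr_scale (L := M + 1) (M := M) (by omega) (by omega)]
      simp
      ring
    have h2 : (fr (M + 1) (M + 1) : ℤ) = 10 ^ (2 * M + 2) + 1 := by
      have : fr (M + 1) (M + 1) = 10 ^ (2 * M + 2) + 1 := by
        unfold fr
        rw [if_neg (by omega)]
        congr 1
        · congr 1; ring
        · simp
      rw [this]; push_cast; ring
    rw [sum_range_succ, h1, h2] at h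
    have hb : |∑ c ∈ range (M + 1), z c * fr M c| ≤ 18 * ∑ c ∈ range (M + 1), (fr M c : ℤ) := by
      rw [mul_sum]
      refine (abs_sum_le_sum_abs _ _).trans (sum_le_sum fun c hc => ?_)
      rw [mem_range] at hc
      rw [abs_mul, abs_of_nonneg (show (0 : ℤ) ≤ fr M c by positivity)]
      exact mul_le_mul_of_nonneg_right (hz c (by omega)) (by positivity)
    have hs := sum_fr_int M
    have hzM := hz (M + 1) le_rfl
    generalize ∑ c ∈ range (M + 1), (fr M c : ℤ) = G1 at *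
    have hp : (0 : ℤ) < 10 ^ (2 * M + 1) := by positivity
    have hpe : (10 : ℤ) ^ (2 * M + 2) = 10 * 10 ^ (2 * M + 1) := by ring
    have h0 : z (M + 1) = 0 := by
      rw [hpe] at h
      generalize (10 : ℤ) ^ (2 * M + 1) = P at *
      generalize ∑ c ∈ range (M + 1), z c * fr M c = S at *
      generalize z (M + 1) = t at *
      have hdvd : (10 : ℤ) ∣ t := by
        have : t = 10 * (-S - t * P) := by linarith
        exact ⟨_, this⟩
      obtain ⟨u, rfl⟩ := hdvd
      rw [abs_le] at hzM hb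
      have hu1 : u ≤ 1 := by omega
      have hu2 : -1 ≤ u := by omega
      have : u = 0 ∨ u = 1 ∨ u = -1 := by omega
      rcases this with rfl | rfl | rfl
      · rfl
      · exfalso; linarith [hb.1, hb.2]
      · exfalso; linarith [hb.1, hb.2]
    have h5 : ∑ c ∈ range (M + 1), z c * fr M c = 0 := by
      rw [h0] at h
      linarith
    intro c hc
    rcases Nat.lt_or_ge M c with h6 | h6
    · obtain rfl : c = M + 1 := by omega
      exact h0
    · exact ih z (fun c hc => hz c (by omega)) h5 c h6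

/-- digit sum -/
noncomputable def DD (β : ℝ) : ℂ := ∑ m ∈ range 10, ee (m * β)

/-- number of representations as a sum of two digits -/
def w2 (s : ℕ) : ℕ := (((range 10) ×ˢ (range 10)).filter (fun p => p.1 + p.2 = s)).card

/-- ranges and weights -/
def RR (K c : ℕ) : ℕ := if c < K then 19 else 10
def ww (K c s : ℕ) : ℕ := if c < K then w2 s else 1
def xx (K c : ℕ) : ℕ := if c < K then 2 else 1

lemma DD_sq (β : ℝ) : DD β ^ 2 = ∑ s ∈ range 19, (w2 s : ℂ) * ee (s * β) := by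
  unfold DD
  rw [sq, sum_mul_sum, ← sum_product']
  have h1 : ∀ p ∈ (range 10) ×ˢ (range 10), p.1 + p.2 ∈ range 19 := by
    intro p hp
    rw [mem_product, mem_range, mem_range] at hp
    rw [mem_range]; omega
  rw [← sum_fiberwise_of_maps_to h1]
  apply sum_congr rfl
  intro s _
  rw [w2, card_eq_sum_ones, Nat.cast_sum, sum_mul]
  apply sum_congr rfl
  intro p hp
  rw [mem_filter] at hp
  rw [← ls_ee_add, ← hp.2]
  push_cast
  rw [one_mul]
  congr 1
  ring

lemma DD_pow (K c : ℕ) (β : ℝ) :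
    DD β ^ (xx K c) = ∑ s ∈ range (RR K c), (ww K c s : ℂ) * ee (s * β) := by
  unfold xx RR ww
  split_ifs with h
  · exact DD_sq β
  · simp [DD]

lemma ww_sq (K c : ℕ) : ∑ s ∈ range (RR K c), ((ww K c s : ℝ)) ^ 2 = if c < K then 670 else 10 := by
  unfold RR ww
  split_ifs with h
  · have : ∑ s ∈ range 19, (w2 s) ^ 2 = 670 := by decide
    exact_mod_cast this
  · simp

/-- the frequency attached to a digit vector -/
def nn (M : ℕ) {J : ℕ} (s : Fin J → ℕ) : ℕ := ∑ c : Fin J, s c * fr M c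

lemma nn_inj (M : ℕ) (s t : Fin (M + 1) → ℕ) (hs : ∀ c, s c ≤ 18) (ht : ∀ c, t c ≤ 18)
    (h : nn M s = nn M t) : s = t := by
  have h1 := digits_zero M (fun c => if hc : c < M + 1 then (s ⟨c, hc⟩ : ℤ) - t ⟨c, hc⟩ else 0) ?_ ?_
  · funext c
    have := h1 c (by omega)
    simp only [c.2, dif_pos] at this
    have h3 : ((s c : ℤ)) = t c := by linarith
    exact_mod_cast h3
  · intro c hc
    have hc' : c < M + 1 := by omega
    simp only [hc', dif_pos]
    have h2 := hs ⟨c, hc'⟩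
    have h3 := ht ⟨c, hc'⟩
    rw [abs_le]
    omega
  · rw [← Fin.sum_univ_eq_sum_range (fun c => (if hc : c < M + 1 then (s ⟨c, hc⟩ : ℤ) - t ⟨c, hc⟩ else 0) * fr M c) (M + 1)]
    have h4 : (nn M s : ℤ) - nn M t = 0 := by rw [h]; ring
    rw [← h4]
    unfold nn
    push_cast
    rw [← sum_sub_distrib]
    apply sum_congr rfl
    intro c _
    simp only [c.2, dif_pos]
    ring

lemma nn_le (M : ℕ) (s : Fin (M + 1) → ℕ) (hs : ∀ c, s c ≤ 18) :
    nn M s + 1 ≤ 2 * 10 ^ (2 * M + 1) := by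
  have h1 : nn M s ≤ 18 * ∑ c ∈ range (M + 1), fr M c := by
    unfold nn
    rw [mul_sum, ← Fin.sum_univ_eq_sum_range (fun c => 18 * fr M c) (M + 1)]
    exact sum_le_sum fun c _ => Nat.mul_le_mul_right _ (hs c)
  have h2 := sum_fr M
  omega

/-- the exponential sum -/
lemma SS_expand (M K : ℕ) (x : ℝ) :
    ∏ c : Fin (M + 1), DD (fr M c * x) ^ (xx K c) =
      ∑ s ∈ Fintype.piFinset (fun c : Fin (M + 1) => range (RR K c)),
        ((∏ c : Fin (M + 1), ww K c (s c) : ℕ) : ℂ) * ee (nn M s * x) := by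
  simp_rw [DD_pow]
  rw [prod_univ_sum]
  apply sum_congr rfl
  intro s _
  rw [prod_mul_distrib]
  push_cast
  congr 1
  unfold nn
  push_cast
  rw [sum_mul]
  induction (univ : Finset (Fin (M + 1))) using Finset.induction_on with
  | empty => simp [ee]
  | insert a t ha ih =>
    rw [prod_insert ha, sum_insert ha, ls_ee_add, ih]
    congr 2
    ring

lemma RR_le (K c s : ℕ) (h : s ∈ range (RR K c)) : s ≤ 18 := by
  rw [mem_range] at h
  unfold RR at h
  split_ifs at h <;> omega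

/-- large sieve for the block, after rescaling -/
lemma block_ls (M K F : ℕ) :
    ∑ f ∈ Icc 1 F, ∑ a ∈ (range f).filter (fun a => a.Coprime f),
      ‖∏ c : Fin (M + 1), DD (fr M c * ((a : ℝ) / f)) ^ (xx K c)‖ ^ 2 ≤
      6 * ((2 * 10 ^ (2 * M + 1) : ℕ) + (F : ℝ) ^ 2) *
        ∏ c : Fin (M + 1), (if (c : ℕ) < K then (670 : ℝ) else 10) := by
  classical
  set P := Fintype.piFinset (fun c : Fin (M + 1) => range (RR K c)) with hP
  set W : (Fin (M + 1) → ℕ) → ℝ := fun s => ((∏ c : Fin (M + 1), ww K c (s c) : ℕ) : ℝ) with hW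
  set α : ℕ → ℂ := fun n => ∑ s ∈ P.filter (fun s => nn M s + 1 = n), (W s : ℂ) with hα
  set N := 2 * 10 ^ (2 * M + 1) with hN
  have hs18 : ∀ s ∈ P, ∀ c, s c ≤ 18 := by
    intro s hs c
    rw [hP, Fintype.mem_piFinset] at hs
    exact RR_le K c _ (hs c)
  have hmaps : ∀ s ∈ P, nn M s + 1 ∈ Icc 1 N := by
    intro s hs
    rw [mem_Icc]
    exact ⟨by omega, nn_le M s (hs18 s hs)⟩
  have key := additive_large_sieve N F α
  have h1 : ∑ n ∈ Icc 1 N, ‖α n‖ ^ 2 = ∏ c : Fin (M + 1), (if (c : ℕ) < K then (670 : ℝ) else 10) := by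
    have h2 : ∀ n, ‖α n‖ ^ 2 = ∑ s ∈ P.filter (fun s => nn M s + 1 = n), W s ^ 2 := by
      intro n
      rw [hα]
      simp only
      rcases (P.filter (fun s => nn M s + 1 = n)).eq_empty_or_nonempty with h | ⟨s, hs⟩
      · rw [h]; simp
      · have : P.filter (fun s => nn M s + 1 = n) = {s} := by
          apply eq_singleton_iff_unique_mem.2 ⟨hs, ?_⟩
          intro t ht
          rw [mem_filter] at hs ht
          exact nn_inj M t s (hs18 t ht.1) (hs18 s hs.1) (by omega)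
        rw [this]
        simp
    simp_rw [h2]
    rw [sum_fiberwise_of_maps_to hmaps (fun s => W s ^ 2)]
    have h3 : ∀ s, W s ^ 2 = ∏ c : Fin (M + 1), ((ww K c (s c) : ℝ)) ^ 2 := by
      intro s
      rw [hW]
      simp only
      push_cast
      rw [← prod_pow]
    simp_rw [h3]
    rw [hP, ← prod_univ_sum (fun c : Fin (M + 1) => range (RR K c)) (fun c j => ((ww K c j : ℝ)) ^ 2)]
    exact prod_congr rfl fun c _ => ww_sq K c
  rw [h1] at key
  refine le_trans (le_of_eq ?_) key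
  apply sum_congr rfl
  intro f _
  apply sum_congr rfl
  intro a _
  congr 1
  rw [SS_expand]
  have h4 : ∑ n ∈ Icc 1 N, α n * ee (n * a / f) =
      ee ((a : ℝ) / f) * ∑ s ∈ P, ((∏ c : Fin (M + 1), ww K c (s c) : ℕ) : ℂ) * ee (nn M s * ((a : ℝ) / f)) := by
    rw [hα]
    simp only
    simp_rw [sum_mul]
    rw [← sum_fiberwise_of_maps_to hmaps, mul_sum]
    apply sum_congr rfl
    intro n _
    rw [mul_sum]
    apply sum_congr rfl
    intro s hs
    rw [mem_filter] at hs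
    rw [← hs.2, hW]
    have : ee (((nn M s + 1 : ℕ) : ℝ) * a / f) = ee ((a : ℝ) / f) * ee (nn M s * ((a : ℝ) / f)) := by
      rw [← ls_ee_add]
      congr 1
      push_cast
      ring
    rw [this]
    push_cast
    ring
  rw [h4, norm_mul, ls_norm_ee, one_mul]

lemma ph_eq (β : ℝ) : ph β = ‖DD β‖ / 10 := rfl

/-- the function of the block as a norm square -/
lemma block_eq (M K : ℕ) (hK : K ≤ M + 1) (x : ℝ) :
    Ps M 0 K x ^ 4 * Ps M K (M + 1 - K) x ^ 2 =
      ‖∏ c : Fin (M + 1), DD (fr M c * x) ^ (xx K c)‖ ^ 2 / (10 ^ (4 * K) * 10 ^ (2 * (M + 1 - K))) := by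
  have h1 : ‖∏ c : Fin (M + 1), DD (fr M c * x) ^ (xx K c)‖ ^ 2 =
      ∏ c ∈ range (M + 1), ‖DD (fr M c * x)‖ ^ (2 * xx K c) := by
    rw [norm_prod, ← prod_pow, ← Fin.prod_univ_eq_prod_range (fun c => ‖DD (fr M c * x)‖ ^ (2 * xx K c)) (M + 1)]
    apply prod_congr rfl
    intro c _
    rw [norm_pow, ← pow_mul, mul_comm 2]
  obtain ⟨R, hR⟩ := Nat.exists_eq_add_of_le hK
  have h2 : M + 1 - K = R := by omega
  rw [h1, h2, hR, prod_range_add]
  have h3 : ∏ c ∈ range K, ‖DD (fr M c * x)‖ ^ (2 * xx K c) = Ps M 0 K x ^ 4 * 10 ^ (4 * K) := by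
    have : ∏ c ∈ range K, ‖DD (fr M c * x)‖ ^ (2 * xx K c) = ∏ c ∈ range K, (ph (fr M (0 + c) * x) ^ 4 * 10 ^ 4) := by
      apply prod_congr rfl
      intro c hc
      rw [mem_range] at hc
      unfold xx
      rw [if_pos hc, ph_eq, zero_add]
      ring
    rw [this, prod_mul_distrib, prod_pow, prod_const, card_range, ← pow_mul]
    rfl
  have h4 : ∏ c ∈ range R, ‖DD (fr M (K + c) * x)‖ ^ (2 * xx K (K + c)) = Ps M K R x ^ 2 * 10 ^ (2 * R) := by
    have : ∏ c ∈ range R, ‖DD (fr M (K + c) * x)‖ ^ (2 * xx K (K + c)) =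
        ∏ c ∈ range R, (ph (fr M (K + c) * x) ^ 2 * 10 ^ 2) := by
      apply prod_congr rfl
      intro c hc
      unfold xx
      rw [if_neg (by omega), ph_eq]
      ring
    rw [this, prod_mul_distrib, prod_pow, prod_const, card_range, ← pow_mul]
    rfl
  rw [h3, h4]
  have h5 : (10 : ℝ) ^ (4 * K) ≠ 0 := by positivity
  have h6 : (10 : ℝ) ^ (2 * R) ≠ 0 := by positivity
  field_simp

/-- product of the weights -/
lemma prod_weights (M K : ℕ) (hK : K ≤ M + 1) :
    ∏ c : Fin (M + 1), (if (c : ℕ) < K then (670 : ℝ) else 10) = 670 ^ K * 10 ^ (M + 1 - K) := by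
  obtain ⟨R, hR⟩ := Nat.exists_eq_add_of_le hK
  have h2 : M + 1 - K = R := by omega
  rw [Fin.prod_univ_eq_prod_range (fun c => if c < K then (670 : ℝ) else 10) (M + 1), h2, hR, prod_range_add]
  congr 1
  · rw [prod_congr rfl (g := fun _ => (670 : ℝ)) (fun c hc => by rw [mem_range] at hc; rw [if_pos hc])]
    simp
  · rw [prod_congr rfl (g := fun _ => (10 : ℝ)) (fun c hc => by rw [if_neg (by omega)])]
    simp

/-- Task T1 -/
theorem T1 (L K J Q : ℕ) (hK : K ≤ J) (hJ : 1 ≤ J) (hJL : J ≤ L) (h1 : Q ≤ 10 ^ J)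
    (h2 : 10 ^ J ≤ 10 * Q) :
    pts Q (fun α => Ps L 0 K α ^ 4 * Ps L K (J - K) α ^ 2) ≤ 144 * Q * (67 / 100) ^ K := by
  obtain ⟨M, rfl⟩ : ∃ M, J = M + 1 := ⟨J - 1, by omega⟩
  have hQ : 1 ≤ Q := by
    have : 0 < 10 ^ (M + 1) := by positivity
    omega
  set F : ℝ → ℝ := fun x => Ps M 0 K x ^ 4 * Ps M K (M + 1 - K) x ^ 2 with hF
  have hper : ∀ (x : ℝ) (n : ℤ), F (x + n) = F x := by
    intro x n
    simp only [hF, Ps_add_int]
  have e1 : pts Q (fun α => Ps L 0 K α ^ 4 * Ps L K (M + 1 - K) α ^ 2) = pts Q F := by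
    unfold pts
    apply sum_congr rfl
    intro q hq
    rw [mem_filter] at hq
    rw [← dilate hq.2 (L - M) F hper]
    apply sum_congr rfl
    intro a _
    simp only [hF]
    rw [Ps_scale (L := L) (M := M) (A := 0) (J := K) (by omega) (by omega),
      Ps_scale (L := L) (M := M) (A := K) (J := M + 1 - K) (by omega) (by omega)]
  rw [e1]
  have e2 : pts Q F ≤ ∑ f ∈ Icc 1 (2 * Q), ∑ a ∈ (range f).filter (fun a => a.Coprime f), F ((a : ℝ) / f) := by
    unfold pts
    apply sum_le_sum_of_subset_of_nonneg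
    · intro q hq
      rw [mem_filter, mem_Ico] at hq
      rw [mem_Icc]; omega
    · intro q _ _
      exact sum_nonneg fun a _ => mul_nonneg (pow_nonneg (Ps_nonneg _ _ _ _) _) (pow_nonneg (Ps_nonneg _ _ _ _) _)
  refine e2.trans ?_
  have e3 : ∑ f ∈ Icc 1 (2 * Q), ∑ a ∈ (range f).filter (fun a => a.Coprime f), F ((a : ℝ) / f) =
      (∑ f ∈ Icc 1 (2 * Q), ∑ a ∈ (range f).filter (fun a => a.Coprime f),
      ‖∏ c : Fin (M + 1), DD (fr M c * ((a : ℝ) / f)) ^ (xx K c)‖ ^ 2) /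
        (10 ^ (4 * K) * 10 ^ (2 * (M + 1 - K))) := by
    rw [sum_div]
    apply sum_congr rfl
    intro f _
    rw [sum_div]
    apply sum_congr rfl
    intro a _
    simp only [hF]
    exact block_eq M K hK _
  rw [e3, div_le_iff₀ (by positivity)]
  refine (block_ls M K (2 * Q)).trans ?_
  rw [prod_weights M K hK]
  have h3 : (10 : ℝ) ^ M ≤ Q := by
    have : 10 ^ M ≤ Q := by
      have : 10 ^ (M + 1) = 10 * 10 ^ M := by ring
      omega
    exact_mod_cast this
  have h4 : (Q : ℝ) ≤ 10 ^ (M + 1) := by exact_mod_cast h1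
  have hQ0 : (0 : ℝ) < Q := by exact_mod_cast hQ
  have h5 : (((2 * 10 ^ (2 * M + 1) : ℕ)) : ℝ) + ((2 * Q : ℕ) : ℝ) ^ 2 ≤ 24 * (Q : ℝ) ^ 2 := by
    push_cast
    have : (10 : ℝ) ^ (2 * M + 1) = 10 * (10 ^ M) ^ 2 := by ring
    rw [this]
    have h6 : ((10 : ℝ) ^ M) ^ 2 ≤ (Q : ℝ) ^ 2 := by gcongr
    nlinarith
  obtain ⟨R, hR⟩ := Nat.exists_eq_add_of_le hK
  have hR' : M + 1 - K = R := by omega
  rw [hR'] at *
  rw [hR] at h4
  have h7 : (67 / 100 : ℝ) ^ K * (10 ^ (4 * K)) = 670 ^ K * 10 ^ K := by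
    rw [pow_mul, ← mul_pow, ← mul_pow]
    norm_num
  calc 6 * (((2 * 10 ^ (2 * M + 1) : ℕ) : ℝ) + ((2 * Q : ℕ) : ℝ) ^ 2) * (670 ^ K * 10 ^ R)
      ≤ 6 * (24 * (Q : ℝ) ^ 2) * (670 ^ K * 10 ^ R) := by gcongr
    _ = 144 * (Q : ℝ) * (670 ^ K * 10 ^ R) * (Q : ℝ) := by ring
    _ ≤ 144 * (Q : ℝ) * (670 ^ K * 10 ^ R) * 10 ^ (K + R) := by gcongr
    _ = 144 * (Q : ℝ) * (67 / 100) ^ K * (10 ^ (4 * K) * 10 ^ (2 * R)) := by
      have : 144 * (Q : ℝ) * (67 / 100) ^ K * (10 ^ (4 * K) * 10 ^ (2 * R)) =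
        144 * Q * ((67 / 100) ^ K * 10 ^ (4 * K)) * 10 ^ (2 * R) := by ring
      rw [this, h7]
      ring

end Pool.Agent.H535R2.Pal
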